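import Pool.Agent.P8H15.FG.Stm3

/-! Project FG, package SGB (helper44) -/

set_option autoImplicit false

namespace Pool.Agent.P8H44.FG

open Finset
open Pool.Agent.P8H15.FG
open Pool.Agent.H560R3.GB (sing C₂)

lemma hh_one : hh 1 = 1 := by
  unfold hh
  rw [if_pos ⟨squarefree_one, odd_one⟩, Nat.primeFactors_one, prod_empty]

lemma hh_nonneg (d : ℕ) : 0 ≤ hh d := by
  unfold hh
  split_ifs with h
  · refine prod_nonneg fun p hp => ?_
    have hp' := Nat.prime_of_mem_primeFactors hp
    have h2 : p ≠ 2 := by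
      rintro rfl
      have h3 : 2 ∣ d := Nat.dvd_of_mem_primeFactors hp
      exact (Nat.not_even_iff_odd.mpr h.2) (even_iff_two_dvd.mpr h3)
    have h3 : 3 ≤ p := by
      have := hp'.two_le
      omega
    have h4 : (3 : ℝ) ≤ p := by exact_mod_cast h3
    apply div_nonneg zero_le_one
    linarith
  · exact le_rfl

theorem sgb : S_EUL → S_TOT → S_SGB := by
  rintro hE ⟨C, hC, hT⟩
  refine ⟨C, hC, fun h N hN h1 hhN => ?_⟩
  have h0 : 0 ≤ C * Real.log (Real.log N) := by
    have h2 := hT 1 N hN le_rfl (by omega)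
    rw [Nat.totient_one, Nat.cast_one, div_one] at h2
    linarith
  unfold sg
  split_ifs with he
  · obtain ⟨hs, ht⟩ := hE h h1 he
    have h2 : (1 : ℝ) ≤ ∑' d : ℕ, (if d.Coprime h then hh d / d else 0) := by
      have h3 := hs.le_tsum 1 (fun d _ => by
        split_ifs
        · exact div_nonneg (hh_nonneg d) (Nat.cast_nonneg d)
        · exact le_rfl)
      rw [if_pos (Nat.coprime_one_left h), hh_one, Nat.cast_one, div_one] at h3
      exact h3
    have h4 : 0 < (h : ℝ) / Nat.totient h := by
      have h5 : (0 : ℝ) < h := by exact_mod_cast h1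
      have h6 : (0 : ℝ) < Nat.totient h := by exact_mod_cast Nat.totient_pos.mpr h1
      positivity
    have h5 : 0 < sing h := by
      rw [← ht] at h4
      exact (pos_iff_pos_of_mul_pos h4).mpr (by linarith)
    have h6 := hT h N hN h1 hhN
    rw [← ht] at h6
    refine ⟨h5.le, le_trans ?_ h6⟩
    nlinarith
  · exact ⟨le_rfl, h0⟩

end Pool.Agent.P8H44.FG
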