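import Pool.Agent.P8H15.FG.Stm

/-!
# Project FG, package GEX (helper44): expansion of the squares
-/

set_option autoImplicit false

namespace Pool.Agent.P8H44.FG

open Finset

/-- the sum over the pairs with `m < n` in the same class -/
theorem inner (w : ℕ → ℝ) (X k m : ℕ) (hk : 1 ≤ k) (hm : m ∈ (Icc 1 X).filter (fun n => n.Coprime k)) :
    ∑ n ∈ ((Icc 1 X).filter (fun n => n.Coprime k)).filter (fun n => n % k = m % k ∧ m < n), w n =
      ∑ j ∈ (Icc 1 (X / k)).filter (fun j => m + j * k ≤ X), w (m + j * k) := by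
  have hm1 := mem_filter.1 hm
  symm
  refine sum_nbij' (fun j => m + j * k) (fun n => (n - m) / k) ?_ ?_ ?_ ?_ ?_
  · intro j hj
    have h1 := mem_filter.1 hj
    have h2 := mem_Icc.1 h1.1
    have hm2 := mem_Icc.1 hm1.1
    have hjk : 1 ≤ j * k := Nat.mul_pos h2.1 hk
    refine mem_filter.2 ⟨mem_filter.2 ⟨mem_Icc.2 ⟨by omega, h1.2⟩, ?_⟩, ?_, by omega⟩
    · show (m + j * k).Coprime k
      rw [Nat.coprime_add_mul_right_left]
      exact hm1.2
    · exact Nat.add_mul_mod_self_right m j k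
  · intro n hn
    have h1 := mem_filter.1 hn
    have h2 := mem_filter.1 h1.1
    have h3 := mem_Icc.1 h2.1
    obtain ⟨h4, h5⟩ := h1.2
    have h6 : k ∣ n - m := (Nat.modEq_iff_dvd' h5.le).1 h4.symm
    have h7 : (n - m) / k * k = n - m := Nat.div_mul_cancel h6
    refine mem_filter.2 ⟨mem_Icc.2 ⟨?_, Nat.div_le_div_right (by omega)⟩, ?_⟩
    · apply Nat.div_pos (Nat.le_of_dvd (by omega) h6) hk
    · rw [h7]
      omega
  · intro j _
    show (m + j * k - m) / k = j
    rw [Nat.add_sub_cancel_left, Nat.mul_div_cancel _ hk]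
  · intro n hn
    have h1 := mem_filter.1 hn
    obtain ⟨h4, h5⟩ := h1.2
    have h6 : k ∣ n - m := (Nat.modEq_iff_dvd' h5.le).1 h4.symm
    show m + (n - m) / k * k = n
    rw [Nat.div_mul_cancel h6]
    omega
  · intro j _
    rfl

/-- the pairs in the same class -/
theorem pairs (w : ℕ → ℝ) (X k : ℕ) (hk : 1 ≤ k) :
    ∑ m ∈ (Icc 1 X).filter (fun n => n.Coprime k), w m *
      ∑ n ∈ ((Icc 1 X).filter (fun n => n.Coprime k)).filter (fun n => n % k = m % k), w n =
    ∑ n ∈ (Icc 1 X).filter (fun n => n.Coprime k), w n ^ 2 +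
      2 * ∑ j ∈ Icc 1 (X / k), ∑ n ∈ (Icc 1 (X - j * k)).filter (fun n => n.Coprime k),
        w n * w (n + j * k) := by
  obtain ⟨s, hs⟩ : ∃ s, s = (Icc 1 X).filter (fun n => n.Coprime k) := ⟨_, rfl⟩
  rw [← hs]
  -- the three parts
  obtain ⟨U, hU⟩ : ∃ U : ℝ, U = ∑ m ∈ s, ∑ n ∈ s.filter (fun n => n % k = m % k ∧ m < n), w m * w n :=
    ⟨_, rfl⟩
  have h1 : ∀ m ∈ s, w m * ∑ n ∈ s.filter (fun n => n % k = m % k), w n =
      w m ^ 2 + ∑ n ∈ s.filter (fun n => n % k = m % k ∧ m < n), w m * w n +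
        ∑ n ∈ s.filter (fun n => n % k = m % k ∧ n < m), w m * w n := by
    intro m hm
    rw [mul_sum]
    have e1 : s.filter (fun n => n % k = m % k) =
        {m} ∪ (s.filter (fun n => n % k = m % k ∧ m < n) ∪
          s.filter (fun n => n % k = m % k ∧ n < m)) := by
      ext n
      simp only [mem_filter, mem_union, mem_singleton]
      constructor
      · rintro ⟨h2, h3⟩
        rcases lt_trichotomy m n with h | h | h
        · exact Or.inr (Or.inl ⟨h2, h3, h⟩)
        · exact Or.inl h.symm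
        · exact Or.inr (Or.inr ⟨h2, h3, h⟩)
      · rintro (rfl | ⟨h2, h3, -⟩ | ⟨h2, h3, -⟩)
        · exact ⟨hm, rfl⟩
        · exact ⟨h2, h3⟩
        · exact ⟨h2, h3⟩
    rw [e1, sum_union, sum_union, sum_singleton]
    · ring
    · rw [disjoint_left]
      intro n h2 h3
      have := (mem_filter.1 h2).2.2
      have := (mem_filter.1 h3).2.2
      omega
    · rw [disjoint_left]
      intro n h2 h3
      rw [mem_singleton] at h2
      subst h2
      rcases mem_union.1 h3 with h | h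
      · exact absurd (mem_filter.1 h).2.2 (lt_irrefl _)
      · exact absurd (mem_filter.1 h).2.2 (lt_irrefl _)
  rw [sum_congr rfl h1, sum_add_distrib, sum_add_distrib]
  have h2 : ∑ m ∈ s, ∑ n ∈ s.filter (fun n => n % k = m % k ∧ n < m), w m * w n = U := by
    rw [hU]
    simp only [sum_filter]
    rw [sum_comm]
    refine sum_congr rfl fun m _ => sum_congr rfl fun n _ => ?_
    by_cases h : n % k = m % k ∧ m < n
    · rw [if_pos h, if_pos ⟨h.1.symm, h.2⟩, mul_comm]
    · rw [if_neg h, if_neg fun h' => h ⟨h'.1.symm, h'.2⟩]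
  have h3 : U = ∑ j ∈ Icc 1 (X / k), ∑ n ∈ (Icc 1 (X - j * k)).filter (fun n => n.Coprime k),
        w n * w (n + j * k) := by
    have h4 : ∀ m ∈ s, ∑ n ∈ s.filter (fun n => n % k = m % k ∧ m < n), w m * w n =
        ∑ j ∈ Icc 1 (X / k), if m + j * k ≤ X then w m * w (m + j * k) else 0 := by
      intro m hm
      rw [hs] at hm
      rw [← mul_sum, hs, inner w X k m hk hm, mul_sum, sum_filter]
    rw [hU, sum_congr rfl h4, sum_comm]
    refine sum_congr rfl fun j _ => ?_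
    rw [← sum_filter, hs, filter_filter]
    refine sum_congr ?_ fun _ _ => rfl
    ext m
    simp only [mem_filter, mem_Icc]
    constructor
    · rintro ⟨⟨h5, h6⟩, h7, h8⟩
      exact ⟨⟨h5, by omega⟩, h7⟩
    · rintro ⟨⟨h5, h6⟩, h7⟩
      exact ⟨⟨h5, by omega⟩, h7, by omega⟩
  rw [h2, ← hU, ← h3]
  ring

theorem expand (w : ℕ → ℝ) (X k : ℕ) (hk : 1 ≤ k) :
    ∑ a ∈ (range k).filter (fun a => a.Coprime k),
      ((∑ n ∈ (Icc 1 X).filter (fun n => n ≡ a [MOD k]), w n) - X / Nat.totient k) ^ 2 =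
    ∑ n ∈ (Icc 1 X).filter (fun n => n.Coprime k), w n ^ 2
    + 2 * ∑ j ∈ Icc 1 (X / k), ∑ n ∈ (Icc 1 (X - j * k)).filter (fun n => n.Coprime k),
        w n * w (n + j * k)
    - 2 * (X / Nat.totient k) * ∑ n ∈ (Icc 1 X).filter (fun n => n.Coprime k), w n
    + (X : ℝ) ^ 2 / Nat.totient k := by
  rw [← pairs w X k hk]
  obtain ⟨s, hs⟩ : ∃ s, s = (Icc 1 X).filter (fun n => n.Coprime k) := ⟨_, rfl⟩
  obtain ⟨A, hA⟩ : ∃ A, A = (range k).filter (fun a => a.Coprime k) := ⟨_, rfl⟩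
  rw [← hs, ← hA]
  have hmod : ∀ n, n.Coprime k ↔ (n % k).Coprime k := by
    intro n
    rw [Nat.coprime_iff_gcd_eq_one, Nat.coprime_iff_gcd_eq_one, Nat.gcd_comm n k, Nat.gcd_rec k n]
  have hcls : ∀ a ∈ A, (Icc 1 X).filter (fun n => n ≡ a [MOD k]) = s.filter (fun n => n % k = a) := by
    intro a ha
    rw [hA] at ha
    obtain ⟨h1, h2⟩ := mem_filter.1 ha
    have h3 := mem_range.1 h1
    ext n
    rw [hs]
    simp only [mem_filter]
    have h4 : n ≡ a [MOD k] ↔ n % k = a := by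
      unfold Nat.ModEq
      rw [Nat.mod_eq_of_lt h3]
    rw [h4]
    constructor
    · rintro ⟨h5, h6⟩
      refine ⟨⟨h5, ?_⟩, h6⟩
      rw [hmod, h6]
      exact h2
    · rintro ⟨⟨h5, -⟩, h6⟩
      exact ⟨h5, h6⟩
  have hmaps : ∀ n ∈ s, n % k ∈ A := by
    intro n hn
    rw [hs] at hn
    rw [hA]
    exact mem_filter.2 ⟨mem_range.2 (Nat.mod_lt _ hk), (hmod n).1 (mem_filter.1 hn).2⟩
  have hfib : ∀ f : ℕ → ℝ, ∑ a ∈ A, ∑ n ∈ s.filter (fun n => n % k = a), f n = ∑ n ∈ s, f n :=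
    fun f => sum_fiberwise_of_maps_to hmaps f
  obtain ⟨c, hc⟩ : ∃ c : ℝ, c = X / Nat.totient k := ⟨_, rfl⟩
  have hφ : (0 : ℝ) < Nat.totient k := by exact_mod_cast Nat.totient_pos.2 hk
  have hcard : (A.card : ℝ) = Nat.totient k := by
    have h1 : A.card = Nat.totient k := by
      rw [Nat.totient_eq_card_coprime, hA]
      refine congrArg card (filter_congr fun a _ => ?_)
      exact Nat.coprime_comm
    rw [h1]
  have hsq : ∀ a ∈ A, ((∑ n ∈ (Icc 1 X).filter (fun n => n ≡ a [MOD k]), w n) -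
      X / Nat.totient k) ^ 2 = ∑ n ∈ s.filter (fun n => n % k = a),
        (w n * ∑ m ∈ s.filter (fun m => m % k = n % k), w m) -
        2 * c * (∑ n ∈ s.filter (fun n => n % k = a), w n) + c ^ 2 := by
    intro a ha
    rw [hcls a ha, ← hc]
    have h1 : ∑ n ∈ s.filter (fun n => n % k = a),
        (w n * ∑ m ∈ s.filter (fun m => m % k = n % k), w m) =
        (∑ n ∈ s.filter (fun n => n % k = a), w n) ^ 2 := by
      rw [pow_two, sum_mul]
      refine sum_congr rfl fun n hn => ?_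
      rw [(mem_filter.1 hn).2]
    rw [h1]
    ring
  rw [sum_congr rfl hsq, sum_add_distrib, sum_sub_distrib, ← mul_sum, hfib, hfib, sum_const,
    nsmul_eq_mul, hcard, ← hc]
  have h2 : (Nat.totient k : ℝ) * c ^ 2 = (X : ℝ) ^ 2 / Nat.totient k := by
    rw [hc]
    field_simp
  rw [h2]

theorem gex : Pool.Agent.P8H15.FG.S_GEX := by
  intro X k hk
  exact expand (fun n => ArithmeticFunction.vonMangoldt n) X k hk

end Pool.Agent.P8H44.FG
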